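import Pool.Agent.H167Z.BP.Final

namespace Pool.Agent.Results.MP_d3b8e5_co.AK6

open Pool.Agent.H167Z.BP

theorem result : ∀ q : ℕ, cr2 (completeBipartiteGraph (Fin 6) (Fin q)) =
    ((2 * (q / 8) * (q - 4 * (q / 8) - 4) : ℕ) : ℕ∞) :=
  fun q => le_antisymm (upper6 q) (lower6 q)

end Pool.Agent.Results.MP_d3b8e5_co.AK6
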